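import Pool.Agent.Q231.Sid.Main

set_option autoImplicit false

/-!
# Sidorenko exponents of bounded-degree hypergraphs are linear in the number of edges

For every `r ≥ 2` there is an explicit function `f_r` such that every `r`-partite `r`-graph `F` of
maximum degree at most `Δ` satisfies `s(F) ≤ f_r(Δ) e(F)`.

Proof: start with the uniform distribution on the homomorphic images of a single edge in `H`, seen
as a homomorphism from `F` with every part glued to one vertex, and unglue the parts one after
another, giving to every vertex of the current part an independent copy of the glued vertex,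
conditioned only on its (boundedly many) neighbours.  The relative entropy with respect to the
uniform distribution of the coordinates on a bounded closed set stays bounded by a constant times
`log (1/t_K(H))`, hence each new vertex costs at most a constant times `log (1/t_K(H))`.
-/

namespace Pool.Agent.Results.MP_30cdc8_co.LinearSidorenkoExponent

open Finset Pool.Agent.Q231.Sid
open scoped ENNReal NNReal

theorem result : ∀ r : ℕ, 2 ≤ r → ∃ f : ℕ → ℕ,
    (∀ Δ, f Δ = 1 + r * (1 + 2 * (Δ * (r - 1))) ^ (r - 1)) ∧
    ∀ (Δ : ℕ) (W : Type) [Fintype W] [DecidableEq W] (F : RGraph r W),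
      F.IsPartite → (∀ v, F.degree v ≤ Δ) →
        F.sidorenkoExponent ≤ ((f Δ * F.edges.card : ℕ) : ℝ≥0∞) := by
  intro r hr
  refine ⟨fun Δ => 1 + r * (1 + 2 * (Δ * (r - 1))) ^ (r - 1), fun _ => rfl, ?_⟩
  intro Δ W _ _ F hF hΔ
  refine sSup_le ?_
  rintro s ⟨a, n, H, rfl, h1, h2⟩
  rcases eq_or_lt_of_le (show (0 : ℝ≥0) ≤ a from a.2) with ha | ha
  · rw [← ha]; simp
  have hd0 : 0 ≤ (RGraph.single r).density H := by unfold RGraph.density; positivity
  have ht : 0 < (RGraph.single r).density H := by
    rcases eq_or_lt_of_le hd0 with h | h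
    · exfalso
      rw [h1, ← h, Real.zero_rpow (by exact_mod_cast ha.ne')] at h2
      exact lt_irrefl _ h2
    · exact h
  have hn : n ≠ 0 := by
    rintro rfl
    have : (RGraph.single r).density H = 0 := by
      unfold RGraph.density
      have h0 : ((Fintype.card (Fin 0) : ℝ)) ^ Fintype.card (Fin r) = 0 := by
        rw [Fintype.card_fin, Fintype.card_fin, Nat.cast_zero, zero_pow (by omega)]
      rw [h0, div_zero]
    exact ht.ne' this
  have : Nonempty (Fin n) := ⟨⟨0, Nat.pos_of_ne_zero hn⟩⟩
  have hlt : (RGraph.single r).density H < 1 := single_density_lt_one hr H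
  set L := - Real.log ((RGraph.single r).density H) with hLdef
  have hL : 0 < L := by
    have := Real.log_neg ht hlt
    rw [hLdef]; linarith
  have h3 : - Real.log (F.density H) = a * L := by
    rw [h1, Real.log_rpow ht, hLdef]; ring
  have hcast : (a : ℝ) ≤ (((1 + r * (1 + 2 * (Δ * (r - 1))) ^ (r - 1)) * F.edges.card : ℕ) : ℝ) := by
    rcases Nat.eq_zero_or_pos F.edges.card with he | he
    · have hE : F.edges = ∅ := card_eq_zero.1 he
      have h4 : F.density H = 1 := by
        unfold RGraph.density
        have h5 : Nat.card {φ : W → Fin n // F.IsHom H φ} = Fintype.card (W → Fin n) := by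
          classical
          rw [Nat.card_eq_fintype_card, Fintype.card_subtype]
          rw [filter_true_of_mem, card_univ]
          intro φ _ e he'
          rw [hE] at he'
          simp at he'
        rw [h5, Fintype.card_fun]
        push_cast
        refine div_self (pow_ne_zero _ ?_)
        rw [Fintype.card_fin]
        exact_mod_cast hn
      rw [h4, Real.log_one] at h3
      have : (a : ℝ) * L > 0 := mul_pos (by exact_mod_cast ha) hL
      linarith
    · have h4 := log_density_le F H hF Δ hΔ (by omega) ht hlt.le
      rw [h3, ← hLdef] at h4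
      have h5 := le_of_mul_le_mul_right h4 hL
      refine h5.trans ?_
      push_cast
      have h6 : (1 : ℝ) ≤ F.edges.card := by exact_mod_cast he
      have h7 : ((r - 1 : ℕ) : ℝ) = ((r - 1 : ℕ) : ℝ) := rfl
      nlinarith
  have : ((a : ℝ≥0) : ℝ≥0∞) ≤
      ((((1 + r * (1 + 2 * (Δ * (r - 1))) ^ (r - 1)) * F.edges.card : ℕ) : ℝ≥0) : ℝ≥0∞) := by
    refine ENNReal.coe_le_coe.2 ?_
    rw [← NNReal.coe_le_coe]
    exact_mod_cast hcast
  simpa using this

end Pool.Agent.Results.MP_30cdc8_co.LinearSidorenkoExponent
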